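import Mathlib

/-!
Every trade in a complex Hadamard matrix of order `n` has size at least `n`.
-/

namespace Pool.Agent.Results.MP_f34218_co.TradeSize

open Matrix

/-- `H` is a complex Hadamard matrix of order `n`: entries of modulus one and `H Hᴴ = n I`. -/
def IsComplexHadamard {n : ℕ} (H : Matrix (Fin n) (Fin n) ℂ) : Prop :=
  (∀ i j, ‖H i j‖ = 1) ∧ H * Hᴴ = (n : ℂ) • (1 : Matrix (Fin n) (Fin n) ℂ)

/-- The set `T` of positions is a trade of `H`: some complex Hadamard matrix `H' ≠ H` differs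
from `H` exactly at the positions in `T`. -/
def IsTrade {n : ℕ} (H : Matrix (Fin n) (Fin n) ℂ) (T : Finset (Fin n × Fin n)) : Prop :=
  ∃ H' : Matrix (Fin n) (Fin n) ℂ, IsComplexHadamard H' ∧ H' ≠ H ∧
    ∀ i j, (i, j) ∈ T ↔ H' i j ≠ H i j

theorem row_bound {n : ℕ} (H C D : Matrix (Fin n) (Fin n) ℂ) (hH : IsComplexHadamard H)
    (hD : D = C * H) (A : Finset (Fin n)) (i : Fin n)
    (hC : ∀ a, a ∉ A → C i a = 0) (hne : ∃ j, D i j ≠ 0) :
    n ≤ (Finset.univ.filter (fun j => D i j ≠ 0)).card * A.card := by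
  classical
  set S : ℝ := ∑ a, ‖C i a‖ ^ 2 with hS
  -- `D Dᴴ = n C Cᴴ`
  have h1 : D * Dᴴ = (n : ℂ) • (C * Cᴴ) := by
    rw [hD, Matrix.conjTranspose_mul, Matrix.mul_assoc, ← Matrix.mul_assoc H, hH.2]
    simp
  have h2 : ∑ j, ‖D i j‖ ^ 2 = n * S := by
    have h3 := congrFun (congrFun h1 i) i
    rw [Matrix.mul_apply, Matrix.smul_apply, Matrix.mul_apply] at h3
    simp only [Matrix.conjTranspose_apply, smul_eq_mul] at h3
    have h4 : ∀ z : ℂ, z * star z = ((‖z‖ ^ 2 : ℝ) : ℂ) := by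
      intro z
      rw [Complex.star_def, Complex.mul_conj, Complex.normSq_eq_norm_sq]
    simp only [h4] at h3
    rw [hS]
    have : (((∑ j, ‖D i j‖ ^ 2 : ℝ)) : ℂ) = ((n * ∑ a, ‖C i a‖ ^ 2 : ℝ) : ℂ) := by
      push_cast
      push_cast at h3
      exact h3
    exact_mod_cast this
  have h5 : ∀ j, ‖D i j‖ ^ 2 ≤ (A.card : ℝ) * S := by
    intro j
    have h6 : D i j = ∑ a ∈ A, C i a * H a j := by
      rw [hD, Matrix.mul_apply]
      symm
      apply Finset.sum_subset (Finset.subset_univ _)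
      intro a _ ha
      rw [hC a ha, zero_mul]
    have h7 : ‖D i j‖ ≤ ∑ a ∈ A, ‖C i a‖ := by
      rw [h6]
      refine (norm_sum_le _ _).trans ?_
      apply Finset.sum_le_sum
      intro a _
      rw [norm_mul, hH.1, mul_one]
    have h8 : (∑ a ∈ A, ‖C i a‖) ^ 2 ≤ (A.card : ℝ) * ∑ a ∈ A, ‖C i a‖ ^ 2 :=
      sq_sum_le_card_mul_sum_sq
    have h9 : ∑ a ∈ A, ‖C i a‖ ^ 2 ≤ S := by
      rw [hS]
      apply Finset.sum_le_sum_of_subset_of_nonneg (Finset.subset_univ _)
      intro _ _ _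
      positivity
    calc ‖D i j‖ ^ 2 ≤ (∑ a ∈ A, ‖C i a‖) ^ 2 := by
          apply pow_le_pow_left₀ (norm_nonneg _) h7
      _ ≤ (A.card : ℝ) * ∑ a ∈ A, ‖C i a‖ ^ 2 := h8
      _ ≤ (A.card : ℝ) * S := by
          apply mul_le_mul_of_nonneg_left h9
          positivity
  have h10 : ∑ j, ‖D i j‖ ^ 2 ≤
      ((Finset.univ.filter (fun j => D i j ≠ 0)).card : ℝ) * ((A.card : ℝ) * S) := by
    have : ∑ j, ‖D i j‖ ^ 2 = ∑ j ∈ Finset.univ.filter (fun j => D i j ≠ 0), ‖D i j‖ ^ 2 := by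
      symm
      apply Finset.sum_subset (Finset.subset_univ _)
      intro j _ hj
      have : D i j = 0 := by
        by_contra h
        exact hj (by simp [h])
      rw [this]
      simp
    rw [this]
    refine (Finset.sum_le_card_nsmul _ _ _ (fun j _ => h5 j)).trans ?_
    rw [nsmul_eq_mul]
  have hSpos : 0 < S := by
    obtain ⟨j, hj⟩ := hne
    have h11 : 0 < ‖D i j‖ ^ 2 := by positivity
    have h12 := h5 j
    by_contra hneg
    have h13 : S ≤ 0 := not_lt.mp hneg
    have : (A.card : ℝ) * S ≤ 0 := mul_nonpos_of_nonneg_of_nonpos (by positivity) h13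
    linarith
  rw [h2] at h10
  have h14 : (n : ℝ) ≤ ((Finset.univ.filter (fun j => D i j ≠ 0)).card : ℝ) * (A.card : ℝ) := by
    have : (n : ℝ) * S ≤
      (((Finset.univ.filter (fun j => D i j ≠ 0)).card : ℝ) * (A.card : ℝ)) * S := by
      rw [mul_assoc]
      exact h10
    exact le_of_mul_le_mul_right this hSpos
  exact_mod_cast h14

/-- Every trade in every complex Hadamard matrix of order `n` has size at least `n`. -/
theorem result : ∀ (n : ℕ) (H : Matrix (Fin n) (Fin n) ℂ), IsComplexHadamard H →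
    ∀ T : Finset (Fin n × Fin n), IsTrade H T → n ≤ T.card := by
  classical
  intro n H hH T hT
  obtain ⟨H', hH', hne, hTT⟩ := hT
  set D : Matrix (Fin n) (Fin n) ℂ := H' - H with hDdef
  have hDne : ∀ i j, D i j ≠ 0 ↔ (i, j) ∈ T := by
    intro i j
    rw [hTT, hDdef, Matrix.sub_apply, sub_ne_zero]
  obtain ⟨i0, j0, hij0⟩ : ∃ i j, H' i j ≠ H i j := by
    by_contra hcon
    push Not at hcon
    exact hne (by ext i j; exact hcon i j)
  have hn0 : 0 < n := lt_of_le_of_lt (Nat.zero_le _) i0.2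
  have hnC : (n : ℂ) ≠ 0 := by exact_mod_cast hn0.ne'
  set A : Finset (Fin n) := Finset.univ.filter (fun i => ∃ j, (i, j) ∈ T) with hA
  set C : Matrix (Fin n) (Fin n) ℂ := (n : ℂ)⁻¹ • (D * Hᴴ) with hCdef
  -- `Hᴴ H = n I`
  have hHH : Hᴴ * H = (n : ℂ) • (1 : Matrix (Fin n) (Fin n) ℂ) := by
    have h1 : ((n : ℂ)⁻¹ • H) * Hᴴ = 1 := by
      rw [Matrix.smul_mul, hH.2, smul_smul, inv_mul_cancel₀ hnC, one_smul]
    have h2 : Hᴴ * ((n : ℂ)⁻¹ • H) = 1 := mul_eq_one_comm.mp h1
    rw [Matrix.mul_smul] at h2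
    calc Hᴴ * H = (n : ℂ) • ((n : ℂ)⁻¹ • (Hᴴ * H)) := by
          rw [smul_smul, mul_inv_cancel₀ hnC, one_smul]
      _ = (n : ℂ) • (1 : Matrix (Fin n) (Fin n) ℂ) := by rw [h2]
  have hDC : D = C * H := by
    rw [hCdef, Matrix.smul_mul, Matrix.mul_assoc, hHH, Matrix.mul_smul, smul_smul,
      inv_mul_cancel₀ hnC, one_smul, Matrix.mul_one]
  have hrowA : ∀ a, a ∉ A → ∀ j, H' a j = H a j := by
    intro a ha j
    by_contra h
    apply ha
    rw [hA]
    simp only [Finset.mem_filter, Finset.mem_univ, true_and]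
    exact ⟨j, (hTT a j).2 h⟩
  have hCzero : ∀ i ∈ A, ∀ a, a ∉ A → C i a = 0 := by
    intro i hi a ha
    have hia : i ≠ a := fun h => ha (h ▸ hi)
    have h1 := congrFun (congrFun hH.2 i) a
    have h2 := congrFun (congrFun hH'.2 i) a
    rw [Matrix.mul_apply] at h1 h2
    simp only [Matrix.smul_apply, Matrix.one_apply_ne hia, smul_zero,
      Matrix.conjTranspose_apply] at h1 h2
    have h3 : ∑ j, H' i j * star (H a j) = 0 := by
      rw [← h2]
      apply Finset.sum_congr rfl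
      intro j _
      rw [hrowA a ha j]
    rw [hCdef, Matrix.smul_apply, Matrix.mul_apply]
    simp only [Matrix.conjTranspose_apply, hDdef, Matrix.sub_apply, sub_mul,
      Finset.sum_sub_distrib]
    rw [h3, h1]
    simp
  have hrow : ∀ i ∈ A, n ≤ (Finset.univ.filter (fun j => D i j ≠ 0)).card * A.card := by
    intro i hi
    apply row_bound H C D hH hDC A i (hCzero i hi)
    rw [hA] at hi
    simp only [Finset.mem_filter, Finset.mem_univ, true_and] at hi
    obtain ⟨j, hj⟩ := hi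
    exact ⟨j, (hDne i j).2 hj⟩
  have hTcard : T.card = ∑ i ∈ A, (Finset.univ.filter (fun j => D i j ≠ 0)).card := by
    have h1 : T.card = ∑ i ∈ A, (T.filter (fun p => p.1 = i)).card := by
      apply Finset.card_eq_sum_card_fiberwise
      intro p hp
      rw [Finset.mem_coe] at hp ⊢
      rw [hA]
      simp only [Finset.mem_filter, Finset.mem_univ, true_and]
      exact ⟨p.2, hp⟩
    rw [h1]
    apply Finset.sum_congr rfl
    intro i _
    symm
    apply Finset.card_bij (fun j _ => (i, j))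
    · intro j hj
      simp only [Finset.mem_filter, Finset.mem_univ, true_and] at hj
      simp only [Finset.mem_filter, and_true]
      exact (hDne i j).1 hj
    · intro j _ j' _ h
      exact (Prod.mk.inj h).2
    · intro p hp
      simp only [Finset.mem_filter] at hp
      refine ⟨p.2, ?_, ?_⟩
      · simp only [Finset.mem_filter, Finset.mem_univ, true_and]
        rw [hDne, ← hp.2]
        exact hp.1
      · rw [← hp.2]
  have hApos : 0 < A.card := by
    apply Finset.card_pos.mpr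
    refine ⟨i0, ?_⟩
    rw [hA]
    simp only [Finset.mem_filter, Finset.mem_univ, true_and]
    exact ⟨j0, (hTT i0 j0).2 hij0⟩
  have hfin : A.card * n ≤ T.card * A.card := by
    rw [hTcard, Finset.sum_mul]
    calc A.card * n = ∑ i ∈ A, n := by rw [Finset.sum_const, smul_eq_mul]
      _ ≤ _ := Finset.sum_le_sum hrow
  rw [mul_comm] at hfin
  exact Nat.le_of_mul_le_mul_right hfin hApos

end Pool.Agent.Results.MP_f34218_co.TradeSize
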